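import Pool.Agent.Helper70.Isg.Goals2

open MeasureTheory Filter Topology

noncomputable section

namespace Pool.Agent.Helper68.Isg

open Pool.Agent.Helper70.Isg

theorem glue_congr {d : ℕ} (Λ : Finset (Site d)) (τ : Λ → Bool) (η η' : Cfg d)
    (h : ∀ u ∉ Λ, η u = η' u) : glue Λ τ η = glue Λ τ η' := by
  funext v
  unfold glue
  by_cases hv : v ∈ Λ
  · simp [hv]
  · simp [hv, h v hv]

theorem ev_congr' {d : ℕ} (β : ℝ) (Λ : Finset (Site d)) (η η' : Cfg d) (f : Cfg d → ℝ)
    (h : ∀ u ∉ Λ, η u = η' u) : ev β Λ η f = ev β Λ η' f := by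
  unfold ev pf
  simp only [glue_congr Λ _ η η' h]

theorem gsum_congr (L L' : ℕ → ℝ) (k : ℕ) (h : ∀ i < k, L i = L' i) : gsum L k = gsum L' k := by
  induction k with
  | zero => rfl
  | succ k ih =>
    unfold gsum
    rw [ih (fun i hi => h i (by omega)), h k (by omega)]

theorem gbit_congr (L L' : ℕ → ℝ) (k : ℕ) (h : ∀ i ≤ k, L i = L' i) : gbit L k = gbit L' k := by
  unfold gbit
  rw [gsum_congr L L' k (fun i hi => h i hi.le), h k le_rfl]

theorem low_congr {d : ℕ} (β : ℝ) (v : Site d) (r : ℕ) (P P' : Site d → Bool) (s : Bool)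
    (a a' : Cfg d) (h1 : ∀ u ∈ ball v r, P' u = P u)
    (h2 : ∀ u ∈ ball v r, P u = true → a' u = a u) :
    low β v r P' s a' = low β v r P s a := by
  unfold low
  have h3 : (ball v r).filter (fun u => P' u = false) = (ball v r).filter (fun u => P u = false) :=
    Finset.filter_congr fun u hu => by rw [h1 u hu]
  rw [h3]
  refine ev_congr' β _ _ _ _ fun u hu => ?_
  by_cases hb : u ∈ ball v r
  · have hP : P u = true := by
      by_contra hne
      exact hu (Finset.mem_filter.2 ⟨hb, by simpa using hne⟩)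
    simp [hb, h2 u hb hP]
  · simp [hb]

theorem prb_congr {d : ℕ} (l l' : Site d → ℕ) (w v : Site d) (h1 : l' w = l w) (h2 : l' v = l v) :
    prb l' w v = prb l w v := by
  unfold prb
  rw [h1, h2]

theorem kbit_congr {d : ℕ} (hB : S_BASIC) (β : ℝ) (K : ℕ) (l l' : Site d → ℕ) (v : Site d) (k : ℕ)
    (a a' : Cfg d) (h1 : ∀ u ∈ ball v (K * (k + 1)), l' u = l u)
    (h2 : ∀ u ∈ ball v (K * (k + 1)), prb l u v = true → a' u = a u) :
    kbit β K l' v k a' = kbit β K l v k a := by
  obtain ⟨-, -, -, hball, -, -, hz, -⟩ := hB d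
  unfold kbit
  have hv : v ∈ ball v (K * (k + 1)) := by
    rw [hball, sub_self, (hz 0).2 rfl]; exact Nat.zero_le _
  refine gbit_congr _ _ _ fun i hi => ?_
  have hsub : ∀ u ∈ ball v (K * (i + 1)), u ∈ ball v (K * (k + 1)) := by
    intro u hu
    rw [hball] at hu ⊢
    exact hu.trans (Nat.mul_le_mul_left K (by omega))
  refine low_congr β v _ _ _ false a a' ?_ ?_
  · intro u hu
    exact prb_congr l l' u v (h1 u (hsub u hu)) (h1 v hv)
  · intro u hu hP
    exact h2 u (hsub u hu) hP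

theorem itr_agree {d : ℕ} (hB : S_BASIC) (β : ℝ) (K L : ℕ) (y y' : Inp d L) (v : Site d) (R : ℕ)
    (hG : Good K y v R) (hy : ∀ u, l1 (u - v) ≤ R → y' u = y u) (n : ℕ) :
    ∀ w, Relation.ReflTransGen (stp K y) v w → itr β K y' n w = itr β K y n w := by
  obtain ⟨-, -, -, hball, -, -, hz, -⟩ := hB d
  induction n with
  | zero => intro w _; rfl
  | succ n ih =>
    intro w hw
    have hww : w ∈ ball w (K * ((y w).2 + 1)) := by
      rw [hball, sub_self, (hz 0).2 rfl]; exact Nat.zero_le _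
    have hyw : y' w = y w := hy w (hG w hw w hww)
    show kbit β K (lab y') w (y' w).2 (itr β K y' n) = kbit β K (lab y) w (y w).2 (itr β K y n)
    rw [hyw]
    refine kbit_congr hB β K _ _ w _ _ _ ?_ ?_
    · intro u hu
      unfold lab
      rw [hy u (hG w hw u hu)]
    · intro u hu hP
      exact ih u (hw.tail ⟨hu, hP⟩)

theorem pf_DET (hB : S_BASIC) : S_DET := by
  intro d β K L y y' v R hG hy
  have h : ∀ n, itr β K y' n v = itr β K y n v :=
    fun n => itr_agree hB β K L y y' v R hG hy n v Relation.ReflTransGen.refl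
  have h2 : (∃ N, ∀ n ≥ N, itr β K y' n v = true) ↔ (∃ N, ∀ n ≥ N, itr β K y n v = true) := by
    constructor
    · rintro ⟨N, hN⟩
      exact ⟨N, fun n hn => (h n) ▸ hN n hn⟩
    · rintro ⟨N, hN⟩
      exact ⟨N, fun n hn => (h n).symm ▸ hN n hn⟩
  unfold phi2
  exact decide_eq_decide.2 h2

end Pool.Agent.Helper68.Isg
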