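import Pool.Agent.Helper70.Isg.Goals2

open MeasureTheory Filter Topology

noncomputable section

namespace Pool.Agent.Helper68.Isg

open Pool.Agent.Helper70.Isg

variable {d : ℕ}

/-- finite volume state as a measure -/
def fm (β : ℝ) (Λ : Finset (Site d)) : Measure (Cfg d) :=
  ∑ τ : Λ → Bool, ENNReal.ofReal (wt β Λ (glue Λ τ allT) / pf β Λ allT) •
    Measure.dirac (glue Λ τ allT)

theorem wt_pos (β : ℝ) (Λ : Finset (Site d)) (σ : Cfg d) : 0 < wt β Λ σ := Real.exp_pos _

theorem pf_pos (β : ℝ) (Λ : Finset (Site d)) (η : Cfg d) : 0 < pf β Λ η := by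
  classical
  unfold pf
  exact Finset.sum_pos (fun τ _ => wt_pos β Λ _) Finset.univ_nonempty

theorem integral_fm (β : ℝ) (Λ : Finset (Site d)) (f : Cfg d → ℝ) :
    ∫ σ, f σ ∂(fm β Λ) = ev β Λ allT f := by
  classical
  unfold fm
  rw [integral_finsetSum_measure]
  · unfold ev
    rw [Finset.sum_div]
    refine Finset.sum_congr rfl fun τ _ => ?_
    rw [integral_smul_measure, integral_dirac]
    rw [ENNReal.toReal_ofReal (div_nonneg (wt_pos β Λ _).le (pf_pos β Λ _).le)]
    simp only [smul_eq_mul]
    ring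
  · intro τ _
    refine Integrable.smul_measure ?_ ENNReal.ofReal_ne_top
    exact integrable_dirac (by simp)

theorem fm_prob (β : ℝ) (Λ : Finset (Site d)) : IsProbabilityMeasure (fm β Λ) := by
  classical
  refine ⟨?_⟩
  unfold fm
  rw [Measure.coe_finsetSum, Finset.sum_apply]
  simp only [Measure.smul_apply, measure_univ, smul_eq_mul, mul_one]
  rw [← ENNReal.ofReal_sum_of_nonneg]
  · rw [← Finset.sum_div]
    have : (∑ τ : Λ → Bool, wt β Λ (glue Λ τ allT)) = pf β Λ allT := rfl
    rw [this, div_self (pf_pos β Λ _).ne', ENNReal.ofReal_one]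
  · intro τ _
    exact div_nonneg (wt_pos β Λ _).le (pf_pos β Λ _).le

/-- finite volume state as a probability measure -/
def pm (β : ℝ) (n : ℕ) : ProbabilityMeasure (Cfg d) := ⟨fm β (ball 0 n), fm_prob β _⟩

/-- the flip -/
def flp : Cfg d → Cfg d := fun σ v => !(σ v)

theorem flp_flp (σ : Cfg d) : flp (flp σ) = σ := by
  funext v; simp [flp]

theorem flp_meas : Measurable (flp : Cfg d → Cfg d) := by
  refine measurable_pi_iff.2 fun v => ?_
  exact (measurable_of_finite (fun b : Bool => !b)).comp (measurable_pi_apply v)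

/-- the flip as a measurable equivalence -/
def flpE : Cfg d ≃ᵐ Cfg d where
  toFun := flp
  invFun := flp
  left_inv := flp_flp
  right_inv := flp_flp
  measurable_toFun := flp_meas
  measurable_invFun := flp_meas

theorem sg_not (b : Bool) : sg (!b) = - sg b := by
  cases b <;> simp [sg]

theorem pf_NONU (hG : S_GIBX) (hF : S_FLIP) : S_NONU := by
  intro d β c hβ hc hmag
  obtain ⟨ν, hν⟩ : ∃ ν : ProbabilityMeasure (Cfg d),
      Tendsto (fun n => pm (d := d) β n) (hyperfilter ℕ : Filter ℕ) (𝓝 ν) := by
    obtain ⟨ν, -, hν⟩ := isCompact_univ.ultrafilter_le_nhds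
      ((hyperfilter ℕ).map (fun n => pm (d := d) β n)) (by simp)
    exact ⟨ν, hν⟩
  have hle : (hyperfilter ℕ : Filter ℕ) ≤ atTop := by
    rw [← Nat.cofinite_eq_atTop]; exact hyperfilter_le_cofinite
  have hint := (ProbabilityMeasure.tendsto_iff_forall_integral_tendsto.1 hν)
  have hev : ∀ f : BoundedContinuousFunction (Cfg d) ℝ,
      Tendsto (fun n : ℕ => ev β (ball 0 n) allT f) (hyperfilter ℕ : Filter ℕ)
        (𝓝 (∫ σ, f σ ∂(ν : Measure (Cfg d)))) := by
    intro f
    refine (hint f).congr fun n => ?_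
    exact integral_fm β _ _
  have hGib : IsGibbs d β (ν : Measure (Cfg d)) := by
    refine hG d β (ν : Measure (Cfg d)) (hyperfilter ℕ : Filter ℕ) inferInstance
      inferInstance hle ?_
    intro F a
    have hclop : IsClopen {σ : Cfg d | ∀ v ∈ F, σ v = a v} := by
      have : {σ : Cfg d | ∀ v ∈ F, σ v = a v} = ⋂ v ∈ F, (fun σ : Cfg d => σ v) ⁻¹' {a v} := by
        ext σ; simp
      rw [this]
      refine Set.Finite.isClopen_biInter F.finite_toSet fun v _ => ?_
      exact (isClopen_discrete {a v}).preimage (continuous_apply v)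
    have h := hev (BoundedContinuousFunction.indicator _ hclop)
    have h2 : ∫ σ, (BoundedContinuousFunction.indicator _ hclop) σ ∂(ν : Measure (Cfg d)) =
        (ν : Measure (Cfg d)).real {σ : Cfg d | ∀ v ∈ F, σ v = a v} := by
      exact integral_indicator_one hclop.isOpen.measurableSet
    rw [h2] at h
    exact h
  have hsc : Continuous (fun σ : Cfg d => sg (σ 0)) :=
    (continuous_of_discreteTopology (f := sg)).comp (continuous_apply 0)
  have hlow : c ≤ ∫ σ, sg (σ 0) ∂(ν : Measure (Cfg d)) := by
    have h := hev (BoundedContinuousFunction.mkOfCompact ⟨fun σ : Cfg d => sg (σ 0), hsc⟩)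
    exact ge_of_tendsto h (Eventually.of_forall fun n => hmag n)
  refine ⟨(ν : Measure (Cfg d)), (ν : Measure (Cfg d)).map flp, hGib, ?_, ?_⟩
  · refine ⟨Measure.isProbabilityMeasure_map flp_meas.aemeasurable, ?_⟩
    intro Λ B hB
    have hme : MeasurableEmbedding (flp : Cfg d → Cfg d) := (flpE (d := d)).measurableEmbedding
    rw [hme.integral_map]
    have h1 : ((ν : Measure (Cfg d)).map flp).real B =
        (ν : Measure (Cfg d)).real (flp ⁻¹' B) := by
      rw [measureReal_def, measureReal_def, Measure.map_apply flp_meas hB]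
    rw [h1, hGib.2 Λ _ (flp_meas hB)]
    refine integral_congr_ae (Eventually.of_forall fun η => ?_)
    have h2 := hF d β Λ η (B.indicator 1)
    exact h2.symm
  · intro heq
    have h1 : ∫ σ, sg (σ 0) ∂((ν : Measure (Cfg d)).map flp) =
        - ∫ σ, sg (σ 0) ∂(ν : Measure (Cfg d)) := by
      have hme : MeasurableEmbedding (flp : Cfg d → Cfg d) := (flpE (d := d)).measurableEmbedding
      rw [hme.integral_map, ← integral_neg]
      refine integral_congr_ae (Eventually.of_forall fun η => ?_)
      exact sg_not _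
    rw [← heq] at h1
    linarith

end Pool.Agent.Helper68.Isg
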